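import Mathlib

namespace Pool.Agent.Results.MP_f8a98e_co.RatioFails

/-- `i` (1-based) is a double descent of `w`: `2 ≤ i ≤ n - 1` and `w_{i-1} > w_i > w_{i+1}`. -/
def IsDD {n : ℕ} (w : Equiv.Perm (Fin n)) (i : ℕ) : Prop :=
  ∃ (_ : 2 ≤ i) (h : i < n),
    w ⟨i - 1, by omega⟩ < w ⟨i - 2, by omega⟩ ∧ w ⟨i, h⟩ < w ⟨i - 1, by omega⟩

open Classical in
/-- `dd(I;n)`: the number of permutations of `[n]` whose double descent set is `I`. -/
noncomputable def dd (I : Set ℕ) (n : ℕ) : ℕ :=
  (Finset.univ.filter fun w : Equiv.Perm (Fin n) => {i | IsDD w i} = I).card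

/-! ### list model -/

/-- the pattern of double descents of a list -/
def pat : List ℕ → List Bool
  | a :: b :: c :: l => (Nat.blt b a && Nat.blt c b) :: pat (b :: c :: l)
  | _ => []

/-- the list of all permutations of `0..6` -/
def perms : List (List ℕ) := List.permutations' [0, 1, 2, 3, 4, 5, 6]

/-- the number of lists with given pattern -/
def cnt (t : List Bool) : ℕ := (perms.filter fun l => decide (pat l = t)).length

set_option maxRecDepth 100000 in
theorem stat : (cnt [true, false, false, false, false], cnt [false, true, false, false, false],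
    cnt [false, false, true, false, false], cnt [false, false, false, true, false])
    = (426, 363, 462, 363) := by
  decide +kernel

set_option maxRecDepth 100000 in
theorem perms_length : perms.length = 5040 := by decide +kernel

theorem perms_nodup : perms.Nodup := by
  have h : ([0, 1, 2, 3, 4, 5, 6] : List ℕ).Nodup := by decide
  exact (List.permutations_perm_permutations' _).nodup_iff.mp (List.nodup_permutations _ h)

/-- The word of a permutation. -/
def toL (σ : Equiv.Perm (Fin 7)) : List ℕ := List.ofFn (fun i => (σ i : ℕ))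

theorem toL_inj : Function.Injective toL := by
  intro σ τ h
  have h2 := List.ofFn_injective h
  ext i
  exact congrFun h2 i

theorem toL_mem (σ : Equiv.Perm (Fin 7)) : toL σ ∈ perms := by
  unfold perms
  rw [List.mem_permutations']
  refine (List.perm_ext_iff_of_nodup ?_ ?_).mpr ?_
  · exact List.nodup_ofFn.mpr (fun i j hij => σ.injective (Fin.ext hij))
  · decide
  · intro a
    unfold toL
    rw [List.mem_ofFn]
    constructor
    · rintro ⟨i, rfl⟩
      have := (σ i).isLt
      simp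
      omega
    · intro ha
      have ha7 : a < 7 := by
        simp at ha
        omega
      refine ⟨σ.symm ⟨a, ha7⟩, ?_⟩
      simp

theorem image_toL : Finset.univ.image toL = perms.toFinset := by
  apply Finset.eq_of_subset_of_card_le
  · intro l hl
    rw [Finset.mem_image] at hl
    obtain ⟨σ, _, rfl⟩ := hl
    exact List.mem_toFinset.mpr (toL_mem σ)
  · rw [Finset.card_image_of_injective _ toL_inj, List.toFinset_card_of_nodup perms_nodup,
      perms_length, Finset.card_univ, Fintype.card_perm, Fintype.card_fin]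
    decide

theorem card_eq (t : List Bool) :
    (Finset.univ.filter fun σ : Equiv.Perm (Fin 7) => pat (toL σ) = t).card = cnt t := by
  unfold cnt
  rw [← List.toFinset_card_of_nodup (perms_nodup.filter _), List.toFinset_filter, ← image_toL,
    Finset.filter_image, Finset.card_image_of_injective _ toL_inj]
  simp

theorem isDD_iff (σ : Equiv.Perm (Fin 7)) (i : ℕ) (h1 : 2 ≤ i) (h2 : i < 7) :
    IsDD σ i ↔ (σ ⟨i - 1, by omega⟩ < σ ⟨i - 2, by omega⟩ ∧ σ ⟨i, h2⟩ < σ ⟨i - 1, by omega⟩) :=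
  ⟨fun h => h.2.2, fun h => ⟨h1, h2, h⟩⟩

theorem blt_eq_decide (a b : Fin 7) : (a : ℕ).blt (b : ℕ) = decide (a < b) := by
  rw [Bool.eq_iff_iff, Nat.blt_eq, decide_eq_true_iff, Fin.lt_def]

theorem pat_toL (σ : Equiv.Perm (Fin 7)) :
    pat (toL σ) = [decide (σ 1 < σ 0 ∧ σ 2 < σ 1), decide (σ 2 < σ 1 ∧ σ 3 < σ 2),
      decide (σ 3 < σ 2 ∧ σ 4 < σ 3), decide (σ 4 < σ 3 ∧ σ 5 < σ 4),
      decide (σ 5 < σ 4 ∧ σ 6 < σ 5)] := by
  unfold toL
  simp only [List.ofFn_succ, List.ofFn_zero, pat]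
  simp [blt_eq_decide]

theorem DDes_iff (σ : Equiv.Perm (Fin 7)) (k : ℕ) (hk : 2 ≤ k ∧ k < 7) :
    {i | IsDD σ i} = {k} ↔
      ((IsDD σ 2 ↔ k = 2) ∧ (IsDD σ 3 ↔ k = 3) ∧ (IsDD σ 4 ↔ k = 4) ∧ (IsDD σ 5 ↔ k = 5) ∧
        (IsDD σ 6 ↔ k = 6)) := by
  constructor
  · intro h
    have h' : ∀ i, IsDD σ i ↔ k = i := fun i => by
      have := Set.ext_iff.mp h i
      simp only [Set.mem_ofPred_eq, Set.mem_singleton_iff] at this
      rw [this]
      exact eq_comm
    exact ⟨h' 2, h' 3, h' 4, h' 5, h' 6⟩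
  · rintro ⟨h2, h3, h4, h5, h6⟩
    ext i
    simp only [Set.mem_ofPred_eq, Set.mem_singleton_iff]
    by_cases hi : 2 ≤ i ∧ i < 7
    · obtain ⟨ha, hb⟩ := hi
      interval_cases i
      · rw [h2]; exact eq_comm
      · rw [h3]; exact eq_comm
      · rw [h4]; exact eq_comm
      · rw [h5]; exact eq_comm
      · rw [h6]; exact eq_comm
    · constructor
      · rintro ⟨ha, hb, _⟩
        exact absurd ⟨ha, hb⟩ hi
      · intro h
        omega


theorem dd_eq (k : ℕ) (hk : 2 ≤ k ∧ k < 7) :
    dd {k} 7 = cnt [decide (k = 2), decide (k = 3), decide (k = 4), decide (k = 5),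
      decide (k = 6)] := by
  classical
  unfold dd
  rw [← card_eq]
  congr 1
  ext σ
  simp only [Finset.mem_filter, Finset.mem_univ, true_and]
  rw [DDes_iff σ k hk, pat_toL, isDD_iff σ 2 (by norm_num) (by norm_num),
    isDD_iff σ 3 (by norm_num) (by norm_num), isDD_iff σ 4 (by norm_num) (by norm_num),
    isDD_iff σ 5 (by norm_num) (by norm_num), isDD_iff σ 6 (by norm_num) (by norm_num)]
  simp only [List.cons.injEq, and_true, decide_eq_decide]
  exact Iff.rfl

theorem dd2 : dd {2} 7 = 426 := by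
  rw [dd_eq 2 (by norm_num)]
  have h := stat
  simp only [Prod.mk.injEq] at h
  exact h.1

theorem dd3 : dd {3} 7 = 363 := by
  rw [dd_eq 3 (by norm_num)]
  have h := stat
  simp only [Prod.mk.injEq] at h
  exact h.2.1

theorem dd4 : dd {4} 7 = 462 := by
  rw [dd_eq 4 (by norm_num)]
  have h := stat
  simp only [Prod.mk.injEq] at h
  exact h.2.2.1

theorem dd5 : dd {5} 7 = 363 := by
  rw [dd_eq 5 (by norm_num)]
  have h := stat
  simp only [Prod.mk.injEq] at h
  exact h.2.2.2

/-- Counterexample `n = 7`, `i = 2`; here `(n + 1) / 2` is the ceiling of `n / 2`. -/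
theorem result :
    (dd {2} 7 = 426 ∧ dd {3} 7 = 363 ∧ dd {4} 7 = 462 ∧ dd {5} 7 = 363) ∧
    ¬ (∀ n i : ℕ, 1 ≤ n → 1 ≤ i → i < (n + 1) / 2 - 1 →
      (Even i → (dd {i} n : ℚ) / dd {i + 1} n > (dd {i + 2} n : ℚ) / dd {i + 3} n) ∧
      (Odd i → (dd {i} n : ℚ) / dd {i + 1} n < (dd {i + 2} n : ℚ) / dd {i + 3} n)) := by
  refine ⟨⟨dd2, dd3, dd4, dd5⟩, ?_⟩
  intro h
  have h1 := (h 7 2 (by norm_num) (by norm_num) (by norm_num)).1 (by decide)
  simp only [Nat.reduceAdd] at h1
  rw [dd2, dd3, dd4, dd5] at h1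
  norm_num at h1

end Pool.Agent.Results.MP_f8a98e_co.RatioFails
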